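import Mathlib

set_option autoImplicit false

open MeasureTheory Set Filter Topology

namespace Pool.Agent.Results.MP_f5cbfa_nt.DenseTriple

/-- The value `a x² + 2 b x y + c y²` of the binary quadratic form with matrix `(a b; b c)`. -/
noncomputable def Qf (a b c : ℝ) (x : ℤ × ℤ) : ℝ :=
  a * (x.1 : ℝ) ^ 2 + 2 * b * (x.1 : ℝ) * (x.2 : ℝ) + c * (x.2 : ℝ) ^ 2

/-- Admissible triples of integer vectors: `x i ≠ ± x j` for `i ≠ j`. -/
def Adm (x : Fin 3 → ℤ × ℤ) : Prop := ∀ i j, i ≠ j → x i ≠ x j ∧ x i ≠ -x j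

/-- The set `S_Q` of pairs of differences of values of the form at admissible triples. -/
def SQ (a b c : ℝ) : Set (ℝ × ℝ) :=
  {z | ∃ x : Fin 3 → ℤ × ℤ, Adm x ∧
    z = (Qf a b c (x 0) - Qf a b c (x 1), Qf a b c (x 1) - Qf a b c (x 2))}

/-- The target `(α, β)` is hit up to `τ`. -/
def Hit (α β τ a b c : ℝ) : Prop :=
  ∃ x : Fin 3 → ℤ × ℤ, Adm x ∧ |Qf a b c (x 0) - Qf a b c (x 1) - α| < τ ∧
    |Qf a b c (x 1) - Qf a b c (x 2) - β| < τ

/-- Numbers `θ` with a denominator of size `N` at which `P (θ P - t)` is close to `c`. -/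
def AA (c ε η : ℝ) (N : ℕ) : Set ℝ :=
  {θ | ∃ P : ℕ, ∃ t : ℤ, N ≤ P ∧ (P : ℝ) ≤ (1 + η) * N ∧ |(P : ℝ) * (θ * P - t) - c| < ε}

/-- Pairs `(P, t)` with `N ≤ P ≤ M` and `u ≤ t / P ≤ u + L`. -/
noncomputable def pairs (N M : ℕ) (u L : ℝ) : Finset (ℕ × ℤ) :=
  (Finset.Icc N M).biUnion
    (fun P => (Finset.Icc ⌈u * P⌉ ⌊(u + L) * P⌋).image (fun t => (P, t)))

theorem mem_pairs (N M : ℕ) (u L : ℝ) (g : ℕ × ℤ) :
    g ∈ pairs N M u L ↔ N ≤ g.1 ∧ g.1 ≤ M ∧ u * g.1 ≤ g.2 ∧ (g.2 : ℝ) ≤ (u + L) * g.1 := by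
  obtain ⟨P, t⟩ := g
  simp only [pairs, Finset.mem_biUnion, Finset.mem_Icc, Finset.mem_image, Prod.mk.injEq]
  constructor
  · rintro ⟨P', ⟨h1, h2⟩, t', ⟨h3, h4⟩, rfl, rfl⟩
    exact ⟨h1, h2, Int.ceil_le.mp h3, Int.le_floor.mp h4⟩
  · rintro ⟨h1, h2, h3, h4⟩
    exact ⟨P, ⟨h1, h2⟩, t, ⟨Int.ceil_le.mpr h3, Int.le_floor.mpr h4⟩, rfl, rfl⟩



theorem L1a_card (u L : ℝ) (P : ℕ) :
    L * P - 1 ≤ (((Finset.Icc ⌈u * P⌉ ⌊(u + L) * P⌋).card : ℕ) : ℝ) := by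
  rw [Int.card_Icc]
  have h1 : ((⌊(u + L) * P⌋ + 1 - ⌈u * P⌉ : ℤ) : ℝ) ≤
      (((⌊(u + L) * P⌋ + 1 - ⌈u * P⌉).toNat : ℤ) : ℝ) := by
    exact_mod_cast Int.self_le_toNat _
  have h2 := Int.lt_floor_add_one ((u + L) * P)
  have h3 := Int.ceil_lt_add_one (u * P)
  push_cast at h1
  have h4 : (((⌊(u + L) * P⌋ + 1 - ⌈u * P⌉).toNat : ℤ) : ℝ) =
      ((⌊(u + L) * P⌋ + 1 - ⌈u * P⌉).toNat : ℝ) := by norm_cast
  push_cast at h4
  linarith

/-- Lemma L1a. -/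
theorem pairs_card_ge (N M : ℕ) (hNM : N ≤ M) (u L : ℝ) (hL : 0 ≤ L) :
    ((M : ℝ) - N + 1) * (L * N - 1) ≤ ((pairs N M u L).card : ℝ) := by
  classical
  have hcard : (pairs N M u L).card =
      ∑ P ∈ Finset.Icc N M, (Finset.Icc ⌈u * P⌉ ⌊(u + L) * P⌋).card := by
    unfold pairs
    rw [Finset.card_biUnion]
    · refine Finset.sum_congr rfl fun P _ => ?_
      rw [Finset.card_image_of_injective]
      intro t t' h
      exact (Prod.mk.inj h).2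
    · intro P _ Q _ hPQ
      simp only [Function.onFun]
      rw [Finset.disjoint_left]
      intro z hz hz'
      rw [Finset.mem_image] at hz hz'
      obtain ⟨t, _, rfl⟩ := hz
      obtain ⟨t', _, h⟩ := hz'
      exact hPQ (Prod.mk.inj h).1.symm
  rw [hcard, Nat.cast_sum]
  have h1 : ∑ _P ∈ Finset.Icc N M, (L * N - 1) ≤
      ∑ P ∈ Finset.Icc N M, (((Finset.Icc ⌈u * P⌉ ⌊(u + L) * P⌋).card : ℕ) : ℝ) := by
    refine Finset.sum_le_sum fun P hP => ?_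
    have h2 := L1a_card u L P
    have h3 : (N : ℝ) ≤ P := by exact_mod_cast (Finset.mem_Icc.mp hP).1
    have h4 : L * N ≤ L * P := mul_le_mul_of_nonneg_left h3 hL
    linarith
  rw [Finset.sum_const, Nat.card_Icc, nsmul_eq_mul, Nat.cast_sub (by omega)] at h1
  push_cast at h1
  have h5 : ((M : ℝ) - N + 1) * (L * N - 1) = ((M : ℝ) + 1 - N) * (L * N - 1) := by ring
  rw [h5]
  exact h1



theorem L1b_card_fibre (u L : ℝ) (hL : 0 ≤ L) (P : ℕ) :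
    ((Finset.Icc ⌈u * P⌉ ⌊(u + L) * P⌋).card : ℝ) ≤ L * P + 1 := by
  rw [Int.card_Icc]
  have hP : (0 : ℝ) ≤ P := Nat.cast_nonneg P
  have hLP : 0 ≤ L * P := mul_nonneg hL hP
  rcases le_or_gt 0 (⌊(u + L) * P⌋ + 1 - ⌈u * P⌉) with h | h
  · have h1 : (((⌊(u + L) * P⌋ + 1 - ⌈u * P⌉).toNat : ℤ) : ℝ) =
        ((⌊(u + L) * P⌋ + 1 - ⌈u * P⌉ : ℤ) : ℝ) := by rw [Int.toNat_of_nonneg h]
    have h2 : (((⌊(u + L) * P⌋ + 1 - ⌈u * P⌉).toNat : ℕ) : ℝ) =
        ((⌊(u + L) * P⌋ + 1 - ⌈u * P⌉ : ℤ) : ℝ) := by exact_mod_cast h1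
    rw [h2]
    push_cast
    have h3 := Int.floor_le ((u + L) * (P : ℝ))
    have h4 := Int.le_ceil (u * (P : ℝ))
    nlinarith
  · rw [Int.toNat_of_nonpos h.le]
    simp only [Nat.cast_zero]
    linarith

theorem L1b_card_pairs (N M : ℕ) (u L : ℝ) (hL : 0 ≤ L) :
    ((pairs N M u L).card : ℝ) ≤ ((Finset.Icc N M).card : ℝ) * (L * M + 1) := by
  have h1 : (pairs N M u L).card ≤ ∑ P ∈ Finset.Icc N M, (Finset.Icc ⌈u * P⌉ ⌊(u + L) * P⌋).card := by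
    refine Finset.card_biUnion_le.trans ?_
    exact Finset.sum_le_sum fun P _ => Finset.card_image_le
  have h2 : ((pairs N M u L).card : ℝ) ≤
      ∑ P ∈ Finset.Icc N M, ((Finset.Icc ⌈u * P⌉ ⌊(u + L) * P⌋).card : ℝ) := by
    exact_mod_cast h1
  refine h2.trans ?_
  rw [← nsmul_eq_mul]
  refine Finset.sum_le_card_nsmul _ _ _ fun P hP => ?_
  refine (L1b_card_fibre u L hL P).trans ?_
  have h3 : (P : ℝ) ≤ M := by exact_mod_cast (Finset.mem_Icc.1 hP).2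
  have := mul_le_mul_of_nonneg_left h3 hL
  linarith

/-- Lemma L1b. -/
theorem pairs_mult_card_le (N M q : ℕ) (hNM : N ≤ M) (hN : 1 ≤ N) (hq : 1 ≤ q) (u L : ℝ)
    (hL : 0 ≤ L) :
    (((pairs N M u L).filter (fun g => q ∣ g.1 ∧ (q : ℤ) ∣ g.2)).card : ℝ) ≤
      (((M : ℝ) - N) / q + 1) * (L * M / q + 1) := by
  have hq0 : (0 : ℝ) < q := by exact_mod_cast hq
  have hsub : (pairs N M u L).filter (fun g => q ∣ g.1 ∧ (q : ℤ) ∣ g.2) ⊆
      (pairs ((N + q - 1) / q) (M / q) u L).image (fun g => (q * g.1, (q : ℤ) * g.2)) := by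
    intro g hg
    rw [Finset.mem_filter, mem_pairs] at hg
    obtain ⟨⟨h1, h2, h3, h4⟩, ⟨P, hP⟩, ⟨t, ht⟩⟩ := hg
    rw [Finset.mem_image]
    refine ⟨(P, t), ?_, ?_⟩
    · rw [mem_pairs]
      refine ⟨?_, ?_, ?_, ?_⟩
      · show (N + q - 1) / q ≤ P
        rw [Nat.div_le_iff_le_mul_add_pred hq]
        rw [hP] at h1
        omega
      · show P ≤ M / q
        rw [Nat.le_div_iff_mul_le hq]
        rw [hP] at h2
        linarith
      · show u * (P : ℝ) ≤ (t : ℝ)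
        rw [hP, ht] at h3
        push_cast at h3
        have : (q : ℝ) * (u * P) ≤ q * t := by linarith
        exact le_of_mul_le_mul_left this hq0
      · show (t : ℝ) ≤ (u + L) * (P : ℝ)
        rw [hP, ht] at h4
        push_cast at h4
        have : (q : ℝ) * t ≤ q * ((u + L) * P) := by linarith
        exact le_of_mul_le_mul_left this hq0
    · rw [← hP, ← ht]
  have hc1 : (((pairs N M u L).filter (fun g => q ∣ g.1 ∧ (q : ℤ) ∣ g.2)).card : ℝ) ≤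
      ((pairs ((N + q - 1) / q) (M / q) u L).card : ℝ) := by
    exact_mod_cast (Finset.card_le_card hsub).trans Finset.card_image_le
  refine hc1.trans ((L1b_card_pairs _ _ u L hL).trans ?_)
  have hMq : ((M / q : ℕ) : ℝ) ≤ (M : ℝ) / q := Nat.cast_div_le
  have hNq : (N : ℝ) / q ≤ (((N + q - 1) / q : ℕ) : ℝ) := by
    rw [div_le_iff₀ hq0]
    have h1 := Nat.div_add_mod (N + q - 1) q
    have h2 := Nat.mod_lt (N + q - 1) hq
    have h3 : N ≤ ((N + q - 1) / q) * q := by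
      rw [mul_comm]
      omega
    exact_mod_cast h3
  have hcard : ((Finset.Icc ((N + q - 1) / q) (M / q)).card : ℝ) ≤ ((M : ℝ) - N) / q + 1 := by
    rw [Nat.card_Icc]
    rcases le_or_gt ((N + q - 1) / q) (M / q + 1) with h | h
    · rw [Nat.cast_sub h]
      push_cast
      rw [sub_div]
      linarith
    · rw [Nat.sub_eq_zero_of_le h.le]
      have : 0 ≤ ((M : ℝ) - N) / q := div_nonneg (sub_nonneg.2 (by exact_mod_cast hNM)) hq0.le
      simp only [Nat.cast_zero]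
      linarith
  have hMM : L * ((M / q : ℕ) : ℝ) + 1 ≤ L * M / q + 1 := by
    have := mul_le_mul_of_nonneg_left hMq hL
    rw [mul_div_assoc]
    linarith
  have h0 : 0 ≤ ((M : ℝ) - N) / q + 1 := by
    have : 0 ≤ ((M : ℝ) - N) / q := div_nonneg (sub_nonneg.2 (by exact_mod_cast hNM)) hq0.le
    linarith
  have h00 : 0 ≤ L * ((M / q : ℕ) : ℝ) + 1 := by positivity
  exact mul_le_mul hcard hMM h00 h0





theorem L1c_S2 (M : ℕ) (hM : 3 ≤ M) :
    ∑ q ∈ Finset.Icc 2 M, (1 : ℝ) / (q : ℝ) ^ 2 ≤ 25 / 36 - 1 / M := by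
  induction M, hM using Nat.le_induction with
  | base =>
    have : Finset.Icc 2 3 = {2, 3} := by decide
    rw [this, Finset.sum_pair (by norm_num)]
    norm_num
  | succ M hM ih =>
    rw [Finset.sum_Icc_succ_top (by omega)]
    have hM0 : (0 : ℝ) < M := by
      have : 0 < M := by omega
      exact_mod_cast this
    have h1 : (1 : ℝ) / ((M + 1 : ℕ) : ℝ) ^ 2 ≤ 1 / M - 1 / ((M + 1 : ℕ) : ℝ) := by
      push_cast
      rw [div_sub_div _ _ hM0.ne' (by positivity), div_le_div_iff₀ (by positivity) (by positivity)]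
      nlinarith
    linarith

theorem L1c_S1 (M : ℕ) : ∑ q ∈ Finset.Icc 2 M, (1 : ℝ) / (q : ℝ) ≤ 2 * √(M : ℝ) := by
  induction M with
  | zero => simp
  | succ M ih =>
    by_cases h : 2 ≤ M + 1
    · rw [Finset.sum_Icc_succ_top h]
      set s := √(M : ℝ) with hs
      set t := √((M + 1 : ℕ) : ℝ) with ht
      have hs2 : s ^ 2 = M := Real.sq_sqrt (Nat.cast_nonneg M)
      have ht2 : t ^ 2 = (M : ℝ) + 1 := by
        rw [ht, Real.sq_sqrt (Nat.cast_nonneg _)]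
        push_cast
        ring
      have hs0 : 0 ≤ s := Real.sqrt_nonneg _
      have ht0 : 0 ≤ t := Real.sqrt_nonneg _
      have ht1 : 1 ≤ t := by
        rw [ht]
        apply Real.one_le_sqrt.2
        push_cast
        have : (0 : ℝ) ≤ M := Nat.cast_nonneg M
        linarith
      have hst : s ≤ t := by
        apply Real.sqrt_le_sqrt
        push_cast
        linarith
      have h3 : (t - s) * (t + s) = 1 := by nlinarith
      have h4 : (1 : ℝ) / ((M + 1 : ℕ) : ℝ) = 1 / t ^ 2 := by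
        rw [ht2]
        push_cast
        rfl
      have h5 : 1 / t ^ 2 ≤ 2 * (t - s) := by
        rw [div_le_iff₀ (by positivity)]
        have h6 : 1 ≤ (t - s) * (2 * t) := by
          have : 0 ≤ (t - s) * (t - s) := mul_self_nonneg _
          nlinarith
        nlinarith [mul_nonneg (sub_nonneg.2 hst) ht0, mul_nonneg (mul_nonneg (sub_nonneg.2 hst) ht0) (sub_nonneg.2 ht1)]
      rw [h4]
      linarith
    · have hM : M = 0 := by omega
      subst hM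
      simp

theorem L1c_union (N M : ℕ) (hN : 1 ≤ N) (u L : ℝ) :
    ((pairs N M u L).card : ℝ) ≤
      (((pairs N M u L).filter (fun g => Nat.Coprime g.1 g.2.natAbs)).card : ℝ) +
      ∑ q ∈ Finset.Icc 2 M,
        (((pairs N M u L).filter (fun g => q ∣ g.1 ∧ (q : ℤ) ∣ g.2)).card : ℝ) := by
  have hsub : pairs N M u L ⊆ ((pairs N M u L).filter (fun g => Nat.Coprime g.1 g.2.natAbs)) ∪
      (Finset.Icc 2 M).biUnion
        (fun q => (pairs N M u L).filter (fun g => q ∣ g.1 ∧ (q : ℤ) ∣ g.2)) := by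
    intro g hg
    by_cases hc : Nat.Coprime g.1 g.2.natAbs
    · exact Finset.mem_union_left _ (Finset.mem_filter.2 ⟨hg, hc⟩)
    · apply Finset.mem_union_right
      rw [Finset.mem_biUnion]
      have hm := (mem_pairs N M u L g).1 hg
      have hpos : 0 < g.1 := by omega
      refine ⟨Nat.gcd g.1 g.2.natAbs, ?_, ?_⟩
      · rw [Finset.mem_Icc]
        have h1 : 0 < Nat.gcd g.1 g.2.natAbs := Nat.gcd_pos_of_pos_left _ hpos
        have h2 : Nat.gcd g.1 g.2.natAbs ≠ 1 := hc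
        have h3 : Nat.gcd g.1 g.2.natAbs ≤ g.1 := Nat.gcd_le_left _ hpos
        omega
      · rw [Finset.mem_filter]
        refine ⟨hg, Nat.gcd_dvd_left _ _, ?_⟩
        rw [Int.natCast_dvd]
        exact Nat.gcd_dvd_right _ _
  have h1 := (Finset.card_le_card hsub).trans
    ((Finset.card_union_le _ _).trans (Nat.add_le_add_left Finset.card_biUnion_le _))
  exact_mod_cast h1

/-- Lemma L1c. -/
theorem count_pairs (η L : ℝ) (hη : 0 < η) (hη1 : η ≤ 1 / 4) (hL : 0 < L) :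
    ∃ N0 : ℕ, ∀ N : ℕ, N0 ≤ N → ∀ u : ℝ, ∃ G : Finset (ℕ × ℤ),
      (∀ g ∈ G, N ≤ g.1 ∧ (g.1 : ℝ) ≤ (1 + η) * N ∧ Nat.Coprime g.1 g.2.natAbs ∧
        u * g.1 ≤ g.2 ∧ (g.2 : ℝ) ≤ (u + L) * g.1) ∧
      η * L * (N : ℝ) ^ 2 / 16 ≤ (G.card : ℝ) := by
  set C : ℝ := η + 3 * (η + 5 / 4 * L) + 5 / 4 with hC
  set A : ℝ := C * 144 / (10 * (η * L)) with hA
  have hηL : 0 < η * L := mul_pos hη hL
  have hC0 : 0 < C := by positivity
  have hA0 : 0 < A := by positivity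
  refine ⟨max ⌈A ^ 2⌉₊ (max ⌈1 / L⌉₊ 3), ?_⟩
  intro N hN u
  have hN1 : A ^ 2 ≤ (N : ℝ) := (Nat.le_ceil _).trans (by exact_mod_cast (le_max_left _ _).trans hN)
  have hN2 : 1 / L ≤ (N : ℝ) := (Nat.le_ceil _).trans
    (by exact_mod_cast ((le_max_left _ _).trans (le_max_right _ _)).trans hN)
  have hN3 : 3 ≤ N := ((le_max_right _ _).trans (le_max_right _ _)).trans hN
  set M : ℕ := ⌊(1 + η) * (N : ℝ)⌋₊ with hM
  set n : ℝ := (N : ℝ) with hn
  set m : ℝ := (M : ℝ) with hm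
  have hn3 : (3 : ℝ) ≤ n := by
    rw [hn]
    exact_mod_cast hN3
  have hm1 : m ≤ (1 + η) * n := Nat.floor_le (by positivity)
  have hm2 : (1 + η) * n < m + 1 := Nat.lt_floor_add_one _
  have hNM : N ≤ M := by
    apply Nat.le_floor
    nlinarith
  have hnm : n ≤ m := by
    rw [hn, hm]
    exact_mod_cast hNM
  have hLn : 1 ≤ L * n := by
    rw [div_le_iff₀ hL] at hN2
    linarith
  refine ⟨(pairs N M u L).filter (fun g => Nat.Coprime g.1 g.2.natAbs), ?_, ?_⟩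
  · intro g hg
    rw [Finset.mem_filter, mem_pairs] at hg
    obtain ⟨⟨h1, h2, h3, h4⟩, h5⟩ := hg
    refine ⟨h1, ?_, h5, h3, h4⟩
    have : (g.1 : ℝ) ≤ m := by
      rw [hm]
      exact_mod_cast h2
    linarith
  · have hu := L1c_union N M (by omega) u L
    have hge := pairs_card_ge N M hNM u L hL.le
    have hsum : ∑ q ∈ Finset.Icc 2 M,
        (((pairs N M u L).filter (fun g => q ∣ g.1 ∧ (q : ℤ) ∣ g.2)).card : ℝ) ≤
        ∑ q ∈ Finset.Icc 2 M, ((m - n) * (L * m) * (1 / (q : ℝ) ^ 2) +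
          ((m - n) + L * m) * (1 / (q : ℝ)) + 1) := by
      apply Finset.sum_le_sum
      intro q hq
      rw [Finset.mem_Icc] at hq
      have h1 := pairs_mult_card_le N M q hNM (by omega) (by omega) u L hL.le
      refine h1.trans (le_of_eq ?_)
      have hq0 : (q : ℝ) ≠ 0 := by
        have : q ≠ 0 := by omega
        exact_mod_cast this
      field_simp
      ring
    rw [Finset.sum_add_distrib, Finset.sum_add_distrib, ← Finset.mul_sum, ← Finset.mul_sum] at hsum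
    have hcardIcc : ∑ _q ∈ Finset.Icc 2 M, (1 : ℝ) ≤ m := by
      rw [Finset.sum_const, Nat.card_Icc, nsmul_eq_mul, mul_one, hm]
      have : M + 1 - 2 ≤ M := by omega
      exact_mod_cast this
    have hS2 : ∑ q ∈ Finset.Icc 2 M, (1 : ℝ) / (q : ℝ) ^ 2 ≤ 25 / 36 := by
      have h1 := L1c_S2 M (by omega)
      have h2 : (0 : ℝ) ≤ 1 / M := by positivity
      linarith
    have hS1 : ∑ q ∈ Finset.Icc 2 M, (1 : ℝ) / (q : ℝ) ≤ 3 * √n := by
      refine (L1c_S1 M).trans ?_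
      have h1 : √(M : ℝ) ≤ √(9 / 4 * n) := by
        apply Real.sqrt_le_sqrt
        change m ≤ _
        nlinarith
      have h2 : √(9 / 4 * n) = 3 / 2 * √n := by
        rw [Real.sqrt_mul (by norm_num), show (9 / 4 : ℝ) = (3 / 2) ^ 2 by norm_num,
          Real.sqrt_sq (by norm_num)]
      linarith
    have hS20 : 0 ≤ ∑ q ∈ Finset.Icc 2 M, (1 : ℝ) / (q : ℝ) ^ 2 :=
      Finset.sum_nonneg fun q _ => by positivity
    have hS10 : 0 ≤ ∑ q ∈ Finset.Icc 2 M, (1 : ℝ) / (q : ℝ) :=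
      Finset.sum_nonneg fun q _ => by positivity
    set S2 := ∑ q ∈ Finset.Icc 2 M, (1 : ℝ) / (q : ℝ) ^ 2 with hS2d
    set S1 := ∑ q ∈ Finset.Icc 2 M, (1 : ℝ) / (q : ℝ) with hS1d
    have hm54 : m ≤ 5 / 4 * n := by nlinarith
    have hmn0 : 0 ≤ m - n := by linarith
    have hmn : m - n ≤ η * n := by linarith
    have hn0 : 0 < n := by linarith
    have T1 : η * n * (L * n - 1) ≤ (m - n + 1) * (L * n - 1) := by
      apply mul_le_mul_of_nonneg_right _ (by linarith)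
      linarith
    have T2 : (m - n) * (L * m) * S2 ≤ (η * n) * (L * (5 / 4 * n)) * (25 / 36) := by
      apply mul_le_mul _ hS2 hS20 (by positivity)
      apply mul_le_mul hmn _ (by positivity) (by positivity)
      exact mul_le_mul_of_nonneg_left hm54 hL.le
    have T3 : ((m - n) + L * m) * S1 ≤ (η * n + L * (5 / 4 * n)) * (3 * √n) := by
      apply mul_le_mul _ hS1 hS10 (by positivity)
      have := mul_le_mul_of_nonneg_left hm54 hL.le
      linarith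
    have hr1 : A ≤ √n := Real.le_sqrt_of_sq_le hN1
    have hr2 : 1 ≤ √n := Real.one_le_sqrt.2 (by linarith)
    have hrr : √n * √n = n := Real.mul_self_sqrt hn0.le
    have hAC : C = 10 / 144 * (η * L) * A := by
      rw [hA]
      field_simp
    have T5 : C * √n ≤ 10 / 144 * (η * L) * n := by
      have : A * √n ≤ √n * √n := mul_le_mul_of_nonneg_right hr1 (Real.sqrt_nonneg _)
      have h2 := mul_le_mul_of_nonneg_left this (by positivity : 0 ≤ 10 / 144 * (η * L))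
      rw [hrr] at h2
      calc C * √n = 10 / 144 * (η * L) * (A * √n) := by rw [hAC]; ring
        _ ≤ _ := h2
    have T6 : η + 3 * (η + 5 / 4 * L) * √n + 5 / 4 ≤ C * √n := by
      rw [hC]
      have h1 : η * 1 ≤ η * √n := mul_le_mul_of_nonneg_left hr2 hη.le
      linarith
    have T7 : (η + 3 * (η + 5 / 4 * L) * √n + 5 / 4) * n ≤ 10 / 144 * (η * L) * n * n :=
      mul_le_mul_of_nonneg_right (T6.trans T5) hn0.le
    have hfin : (η * L * n ^ 2 / 16 : ℝ) ≤ η * n * (L * n - 1) -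
        ((η * n) * (L * (5 / 4 * n)) * (25 / 36) + (η * n + L * (5 / 4 * n)) * (3 * √n) +
          5 / 4 * n) := by
      nlinarith [T7]
    linarith




/-- the interval of the pair `(P, t)` -/
def L2_J (c ε : ℝ) (g : ℕ × ℤ) : Set ℝ :=
  Set.Ioo ((g.2 : ℝ) / g.1 + (c - ε) / (g.1 : ℝ) ^ 2) ((g.2 : ℝ) / g.1 + (c + ε) / (g.1 : ℝ) ^ 2)

theorem L2_mem (c ε : ℝ) (g : ℕ × ℤ) (θ : ℝ) (hθ : θ ∈ L2_J c ε g) :
    |θ - (g.2 : ℝ) / g.1 - c / (g.1 : ℝ) ^ 2| < ε / (g.1 : ℝ) ^ 2 := by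
  obtain ⟨h1, h2⟩ := hθ
  rw [sub_div] at h1
  rw [add_div] at h2
  rw [abs_lt]
  constructor <;> linarith

theorem L2_mem' (c ε : ℝ) (g : ℕ × ℤ) (hg : 0 < g.1) (θ : ℝ) (hθ : θ ∈ L2_J c ε g) :
    |(g.1 : ℝ) * (θ * g.1 - g.2) - c| < ε := by
  have h := L2_mem c ε g θ hθ
  have hP : (0 : ℝ) < g.1 := by exact_mod_cast hg
  have hP2 : (0 : ℝ) < (g.1 : ℝ) ^ 2 := by positivity
  rw [lt_div_iff₀ hP2] at h
  have e : (g.1 : ℝ) * (θ * g.1 - g.2) - c =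
      (θ - (g.2 : ℝ) / g.1 - c / (g.1 : ℝ) ^ 2) * (g.1 : ℝ) ^ 2 := by
    field_simp
  rw [e, abs_mul, abs_of_pos hP2]
  exact h

theorem L2_sep (g g' : ℕ × ℤ) (h0 : 0 < g.1) (h0' : 0 < g'.1) (hc : Nat.Coprime g.1 g.2.natAbs)
    (hc' : Nat.Coprime g'.1 g'.2.natAbs) (hne : g ≠ g') :
    1 / ((g.1 : ℝ) * g'.1) ≤ |(g.2 : ℝ) / g.1 - (g'.2 : ℝ) / g'.1| := by
  have hP : (0 : ℝ) < g.1 := by exact_mod_cast h0
  have hP' : (0 : ℝ) < g'.1 := by exact_mod_cast h0'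
  have hz : g.2 * (g'.1 : ℤ) - g'.2 * (g.1 : ℤ) ≠ 0 := by
    intro hz
    have hz' : g.2 * (g'.1 : ℤ) = g'.2 * (g.1 : ℤ) := by linarith
    have c1 : IsCoprime (g.1 : ℤ) g.2 := by
      rw [Int.isCoprime_iff_gcd_eq_one]
      simpa [Int.gcd] using hc
    have c2 : IsCoprime (g'.1 : ℤ) g'.2 := by
      rw [Int.isCoprime_iff_gcd_eq_one]
      simpa [Int.gcd] using hc'
    have d1 : (g.1 : ℤ) ∣ (g'.1 : ℤ) := by
      apply c1.dvd_of_dvd_mul_left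
      rw [hz']
      exact dvd_mul_left _ _
    have d2 : (g'.1 : ℤ) ∣ (g.1 : ℤ) := by
      apply c2.dvd_of_dvd_mul_left
      rw [← hz']
      exact dvd_mul_left _ _
    have e1 : g.1 = g'.1 := Nat.dvd_antisymm (Int.natCast_dvd_natCast.1 d1)
      (Int.natCast_dvd_natCast.1 d2)
    have e2 : g.2 = g'.2 := by
      rw [e1] at hz'
      have : (g'.1 : ℤ) ≠ 0 := by exact_mod_cast h0'.ne'
      exact mul_right_cancel₀ this hz'
    exact hne (Prod.ext e1 e2)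
  have h1 : (1 : ℝ) ≤ |(g.2 : ℝ) * g'.1 - g'.2 * g.1| := by
    have := Int.one_le_abs hz
    exact_mod_cast this
  have e : (g.2 : ℝ) / g.1 - (g'.2 : ℝ) / g'.1 =
      ((g.2 : ℝ) * g'.1 - g'.2 * g.1) / ((g.1 : ℝ) * g'.1) := by
    field_simp
  rw [e, abs_div, abs_of_pos (by positivity : (0 : ℝ) < (g.1 : ℝ) * g'.1)]
  exact div_le_div_of_nonneg_right h1 (by positivity)

theorem L2_ratio (η N P : ℝ) (hη : 0 < η) (hη1 : η ≤ 1 / 4) (hN : 0 < N) (h1 : N ≤ P)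
    (h2 : P ≤ (1 + η) * N) : (1 - 2 * η) / N ^ 2 ≤ 1 / P ^ 2 ∧ 1 / P ^ 2 ≤ 1 / N ^ 2 := by
  have hP : 0 < P := by linarith
  constructor
  · rw [div_le_div_iff₀ (by positivity) (by positivity), one_mul]
    have h3 : P ^ 2 ≤ ((1 + η) * N) ^ 2 := pow_le_pow_left₀ hP.le h2 2
    have h4 : (1 - 2 * η) * (1 + η) ^ 2 ≤ 1 := by nlinarith [sq_nonneg η, pow_pos hη 3]
    calc (1 - 2 * η) * P ^ 2 ≤ (1 - 2 * η) * ((1 + η) * N) ^ 2 :=
          mul_le_mul_of_nonneg_left h3 (by linarith)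
      _ = ((1 - 2 * η) * (1 + η) ^ 2) * N ^ 2 := by ring
      _ ≤ 1 * N ^ 2 := mul_le_mul_of_nonneg_right h4 (by positivity)
      _ = N ^ 2 := one_mul _
  · apply one_div_le_one_div_of_le (by positivity)
    exact pow_le_pow_left₀ hN.le h1 2

theorem L2_disj (c ε η : ℝ) (_hε : 0 < ε) (hε1 : ε ≤ 1 / 4) (hη : 0 < η) (hη1 : η ≤ 1 / 4)
    (hc : η * |c| ≤ 1 / 16) (N : ℕ) (hN : 0 < N) (g g' : ℕ × ℤ) (h1 : N ≤ g.1)
    (h2 : (g.1 : ℝ) ≤ (1 + η) * N) (h1' : N ≤ g'.1)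
    (h2' : (g'.1 : ℝ) ≤ (1 + η) * N) (hc1 : Nat.Coprime g.1 g.2.natAbs)
    (hc1' : Nat.Coprime g'.1 g'.2.natAbs) (hne : g ≠ g') :
    Disjoint (L2_J c ε g) (L2_J c ε g') := by
  rw [Set.disjoint_left]
  intro θ hθ hθ'
  have hNR : (0 : ℝ) < N := by exact_mod_cast hN
  have h1R : (N : ℝ) ≤ g.1 := by exact_mod_cast h1
  have h1R' : (N : ℝ) ≤ g'.1 := by exact_mod_cast h1'
  have hP : (0 : ℝ) < g.1 := by linarith
  have hP' : (0 : ℝ) < g'.1 := by linarith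
  have a1 := L2_mem c ε g θ hθ
  have a2 := L2_mem c ε g' θ hθ'
  have a3 := L2_sep g g' (by omega) (by omega) hc1 hc1' hne
  obtain ⟨r1, r2⟩ := L2_ratio η N g.1 hη hη1 hNR h1R h2
  obtain ⟨r1', r2'⟩ := L2_ratio η N g'.1 hη hη1 hNR h1R' h2'
  set Z : ℝ := 1 / (N : ℝ) ^ 2 with hZ
  have hZ0 : 0 < Z := by positivity
  have q1 : ε / (g.1 : ℝ) ^ 2 ≤ 1 / 4 * Z := by
    rw [div_eq_mul_one_div]
    exact mul_le_mul hε1 r2 (by positivity) (by norm_num)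
  have q2 : ε / (g'.1 : ℝ) ^ 2 ≤ 1 / 4 * Z := by
    rw [div_eq_mul_one_div]
    exact mul_le_mul hε1 r2' (by positivity) (by norm_num)
  have q3 : |c / (g.1 : ℝ) ^ 2 - c / (g'.1 : ℝ) ^ 2| ≤ 1 / 8 * Z := by
    rw [div_eq_mul_one_div, div_eq_mul_one_div c ((g'.1 : ℝ) ^ 2), ← mul_sub, abs_mul]
    have r3 : |1 / (g.1 : ℝ) ^ 2 - 1 / (g'.1 : ℝ) ^ 2| ≤ 2 * η * Z := by
      rw [sub_div] at r1 r1'
      have r4 : 2 * η / (N : ℝ) ^ 2 = 2 * η * Z := by rw [hZ]; ring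
      rw [abs_le]
      constructor <;> linarith
    calc |c| * |1 / (g.1 : ℝ) ^ 2 - 1 / (g'.1 : ℝ) ^ 2| ≤ |c| * (2 * η * Z) :=
          mul_le_mul_of_nonneg_left r3 (abs_nonneg c)
      _ = 2 * (η * |c|) * Z := by ring
      _ ≤ 2 * (1 / 16) * Z := by
          apply mul_le_mul_of_nonneg_right _ hZ0.le
          linarith
      _ = 1 / 8 * Z := by ring
  have q4 : 16 / 25 * Z ≤ 1 / ((g.1 : ℝ) * g'.1) := by
    have e : 16 / 25 * Z = 1 / ((5 / 4 * N) * (5 / 4 * N)) := by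
      rw [hZ]
      field_simp
      norm_num
    rw [e]
    apply one_div_le_one_div_of_le (by positivity)
    have k1 : (g.1 : ℝ) ≤ 5 / 4 * N := by nlinarith
    have k2 : (g'.1 : ℝ) ≤ 5 / 4 * N := by nlinarith
    exact mul_le_mul k1 k2 hP'.le (by positivity)
  have q5 : |(g.2 : ℝ) / g.1 - (g'.2 : ℝ) / g'.1| ≤
      |θ - (g.2 : ℝ) / g.1 - c / (g.1 : ℝ) ^ 2| + |θ - (g'.2 : ℝ) / g'.1 - c / (g'.1 : ℝ) ^ 2| +
        |c / (g.1 : ℝ) ^ 2 - c / (g'.1 : ℝ) ^ 2| := by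
    have e : (g.2 : ℝ) / g.1 - (g'.2 : ℝ) / g'.1 =
        -(θ - (g.2 : ℝ) / g.1 - c / (g.1 : ℝ) ^ 2) + (θ - (g'.2 : ℝ) / g'.1 - c / (g'.1 : ℝ) ^ 2) +
          -(c / (g.1 : ℝ) ^ 2 - c / (g'.1 : ℝ) ^ 2) := by ring
    rw [e]
    refine (abs_add_three _ _ _).trans ?_
    rw [abs_neg, abs_neg]
  linarith

theorem L2_vol (c ε : ℝ) (g : ℕ × ℤ) :
    volume (L2_J c ε g) = ENNReal.ofReal (2 * ε / (g.1 : ℝ) ^ 2) := by
  unfold L2_J
  rw [Real.volume_Ioo]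
  congr 1
  ring

/-- Lemma L2. -/
theorem meas_lower (c ε η : ℝ) (hε : 0 < ε) (hε1 : ε ≤ 1 / 4) (hη : 0 < η) (hη1 : η ≤ 1 / 4)
    (hc : η * |c| ≤ 1 / 16) (u v : ℝ) (huv : u < v) :
    ∃ N0 : ℕ, ∀ N : ℕ, N0 ≤ N →
      ENNReal.ofReal (η * ε / 25 * (v - u)) ≤ volume (AA c ε η N ∩ Set.Icc u v) := by
  obtain ⟨N1, hN1⟩ := count_pairs η ((v - u) / 2) hη hη1 (by linarith)
  obtain ⟨N2, hN2⟩ := exists_nat_gt (4 * (|c| + ε) / (v - u))
  refine ⟨max N1 (N2 + 1), fun N hN => ?_⟩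
  have hNN1 : N1 ≤ N := (le_max_left _ _).trans hN
  have hNN2 : N2 + 1 ≤ N := (le_max_right _ _).trans hN
  have hN0 : 0 < N := by omega
  have hNR : (0 : ℝ) < N := by exact_mod_cast hN0
  have hNR1 : (1 : ℝ) ≤ N := by exact_mod_cast hN0
  obtain ⟨G, hG, hcard⟩ := hN1 N hNN1 (u + (v - u) / 4)
  have hNbig : 4 * (|c| + ε) < (v - u) * (N : ℝ) ^ 2 := by
    rw [div_lt_iff₀ (by linarith)] at hN2
    have h1 : (N2 : ℝ) ≤ N := by exact_mod_cast (by omega : N2 ≤ N)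
    have h2 : (N : ℝ) ≤ (N : ℝ) ^ 2 := by nlinarith
    have h3 : (N2 : ℝ) * (v - u) ≤ (N : ℝ) ^ 2 * (v - u) :=
      mul_le_mul_of_nonneg_right (h1.trans h2) (by linarith)
    linarith
  have hsub : (⋃ g ∈ G, L2_J c ε g) ⊆ AA c ε η N ∩ Set.Icc u v := by
    intro θ hθ
    rw [Set.mem_iUnion₂] at hθ
    obtain ⟨g, hg, hθ⟩ := hθ
    obtain ⟨h1, h2, h3, h4, h5⟩ := hG g hg
    have h1R : (N : ℝ) ≤ g.1 := by exact_mod_cast h1
    have hP : (0 : ℝ) < g.1 := by linarith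
    refine ⟨⟨g.1, g.2, h1, h2, L2_mem' c ε g (by omega) θ hθ⟩, ?_⟩
    have a1 := L2_mem c ε g θ hθ
    have a2 : |c / (g.1 : ℝ) ^ 2| + ε / (g.1 : ℝ) ^ 2 ≤ (v - u) / 4 := by
      rw [abs_div, abs_of_pos (by positivity : (0 : ℝ) < (g.1 : ℝ) ^ 2), ← add_div,
        div_le_iff₀ (by positivity)]
      have a3 : (N : ℝ) ^ 2 ≤ (g.1 : ℝ) ^ 2 := pow_le_pow_left₀ hNR.le h1R 2
      have a4 : (v - u) * (N : ℝ) ^ 2 ≤ (v - u) * (g.1 : ℝ) ^ 2 :=
        mul_le_mul_of_nonneg_left a3 (by linarith)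
      linarith
    have a5 : u + (v - u) / 4 ≤ (g.2 : ℝ) / g.1 := by
      rw [le_div_iff₀ hP]
      exact h4
    have a6 : (g.2 : ℝ) / g.1 ≤ u + (v - u) / 4 + (v - u) / 2 := by
      rw [div_le_iff₀ hP]
      exact h5
    have a7 := abs_lt.1 a1
    have a8 := abs_le.1 (le_refl |c / (g.1 : ℝ) ^ 2|)
    constructor
    · linarith [a7.1, a8.1]
    · linarith [a7.2, a8.2]
  have hdisj : (G : Set (ℕ × ℤ)).PairwiseDisjoint (L2_J c ε) := by
    intro g hg g' hg' hne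
    obtain ⟨h1, h2, h3, -, -⟩ := hG g hg
    obtain ⟨h1', h2', h3', -, -⟩ := hG g' hg'
    exact L2_disj c ε η hε hε1 hη hη1 hc N hN0 g g' h1 h2 h1' h2' h3 h3' hne
  calc ENNReal.ofReal (η * ε / 25 * (v - u))
      ≤ ENNReal.ofReal ((G.card : ℝ) * (32 / 25 * ε / (N : ℝ) ^ 2)) := by
        apply ENNReal.ofReal_le_ofReal
        have h1 : 0 ≤ 32 / 25 * ε / (N : ℝ) ^ 2 := by positivity
        have h2 := mul_le_mul_of_nonneg_right hcard h1
        refine le_trans (le_of_eq ?_) h2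
        field_simp
        ring
    _ = ∑ g ∈ G, ENNReal.ofReal (32 / 25 * ε / (N : ℝ) ^ 2) := by
        rw [Finset.sum_const, nsmul_eq_mul, ENNReal.ofReal_mul (by positivity),
          ENNReal.ofReal_natCast]
    _ ≤ ∑ g ∈ G, volume (L2_J c ε g) := by
        apply Finset.sum_le_sum
        intro g hg
        obtain ⟨h1, h2, -, -, -⟩ := hG g hg
        have h1R : (N : ℝ) ≤ g.1 := by exact_mod_cast h1
        have hP : (0 : ℝ) < g.1 := by linarith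
        rw [L2_vol]
        apply ENNReal.ofReal_le_ofReal
        rw [div_le_div_iff₀ (by positivity) (by positivity)]
        have k1 : (g.1 : ℝ) ≤ 5 / 4 * N := by nlinarith
        have k2 : (g.1 : ℝ) ^ 2 ≤ (5 / 4 * N) ^ 2 := pow_le_pow_left₀ hP.le k1 2
        nlinarith
    _ = volume (⋃ g ∈ G, L2_J c ε g) :=
        (measure_biUnion_finset hdisj (fun g _ => measurableSet_Ioo)).symm
    _ ≤ volume (AA c ε η N ∩ Set.Icc u v) := measure_mono hsub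



theorem L3_side (κ0 c ρ η ε δ κ : ℝ) (N P R : ℕ) (s : ℤ) (hκ0 : 0 < κ0) (hη : 0 < η)
    (hη1 : η ≤ 1 / 4) (hN : 1 ≤ N) (hP : N ≤ P) (hP' : (P : ℝ) ≤ (1 + η) * N) (hR : N ≤ R)
    (hR' : (R : ℝ) ≤ (1 + η) * N) (hκ : |κ - κ0| ≤ ρ) (hs : |(R : ℝ) * (κ * R - s) - c| < ε)
    (hε : ε ≤ 1) (hb1 : 2 * ρ ≤ δ / 4) (hb2 : κ0 * η ≤ δ / 4) (hb3 : (|c| + 1) / N ≤ δ / 4) :
    |((P : ℝ) + s) / P - (1 + κ0)| ≤ 3 * δ / 4 := by
  have hN0 : (1 : ℝ) ≤ N := by exact_mod_cast hN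
  have hPN : (N : ℝ) ≤ P := by exact_mod_cast hP
  have hRN : (N : ℝ) ≤ R := by exact_mod_cast hR
  have hP0 : (0 : ℝ) < P := by linarith
  have hR0 : (0 : ℝ) < R := by linarith
  have e1 : ((P : ℝ) + s) / P - (1 + κ0) =
      (κ - κ0) * (R / P) + κ0 * (R / P - 1) - (κ * R - s) / P := by
    field_simp
    ring
  have hq1 : (R : ℝ) / P ≤ 1 + η := by
    rw [div_le_iff₀ hP0]
    nlinarith
  have hq0 : 0 ≤ (R : ℝ) / P := by positivity
  have hq2 : 1 - η ≤ (R : ℝ) / P := by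
    rw [le_div_iff₀ hP0]
    have h1 : (P : ℝ) ≤ (1 + η) * R := by nlinarith
    have h2 : (1 - η) * (P : ℝ) ≤ (1 - η) * ((1 + η) * R) :=
      mul_le_mul_of_nonneg_left h1 (by linarith)
    nlinarith [mul_pos hη hη, mul_pos (mul_pos hη hη) hR0]
  have hq3 : |(R : ℝ) / P - 1| ≤ η := by
    rw [abs_le]
    constructor <;> linarith
  have he : |κ * R - s| ≤ (|c| + 1) / N := by
    have h1 : |(R : ℝ) * (κ * R - s)| ≤ |c| + 1 := by
      have h2 := abs_sub_abs_le_abs_sub ((R : ℝ) * (κ * R - s)) c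
      linarith
    rw [abs_mul, abs_of_pos hR0] at h1
    rw [le_div_iff₀ (by linarith)]
    have h3 : |κ * R - s| * N ≤ |κ * R - s| * R :=
      mul_le_mul_of_nonneg_left hRN (abs_nonneg _)
    linarith
  have he2 : |(κ * R - s) / P| ≤ δ / 4 := by
    rw [abs_div, abs_of_pos hP0]
    have h1 : |κ * R - s| / P ≤ |κ * R - s| := by
      apply div_le_self (abs_nonneg _)
      linarith
    linarith
  have ht1 : |(κ - κ0) * ((R : ℝ) / P)| ≤ δ / 4 := by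
    rw [abs_mul, abs_of_nonneg hq0]
    have h0 : 0 ≤ |κ - κ0| := abs_nonneg _
    have h1 : |κ - κ0| * ((R : ℝ) / P) ≤ |κ - κ0| * 2 :=
      mul_le_mul_of_nonneg_left (by linarith) h0
    linarith
  have ht2 : |κ0 * ((R : ℝ) / P - 1)| ≤ δ / 4 := by
    rw [abs_mul, abs_of_pos hκ0]
    have h1 : κ0 * |(R : ℝ) / P - 1| ≤ κ0 * η := mul_le_mul_of_nonneg_left hq3 hκ0.le
    linarith
  rw [e1]
  have h4 := abs_sub ((κ - κ0) * ((R : ℝ) / P) + κ0 * (R / P - 1)) ((κ * R - s) / P)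
  have h5 := abs_add_le ((κ - κ0) * ((R : ℝ) / P)) (κ0 * (R / P - 1))
  linarith

theorem L3_fin (b X X0 Y c δ ε M S τ : ℝ) (hb : 0 < b) (hX0 : 0 < X0) (hX0S : X0 ≤ S)
    (hcM : |c| + 1 ≤ M) (hX : |X - X0| ≤ 3 * δ / 4) (hY : |Y - c| < ε) (hε0 : 0 < ε) (hε : ε ≤ 1)
    (hδ : 0 < δ) (h1 : 16 * b * M * δ ≤ τ) (h2 : 16 * b * S * ε ≤ τ) (hτ : 0 < τ) :
    |4 * b * X * Y - 4 * b * X0 * c| < τ := by
  have e1 : 4 * b * X * Y - 4 * b * X0 * c = 4 * b * ((X - X0) * Y + X0 * (Y - c)) := by ring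
  have hYb : |Y| ≤ M := by
    have h3 := abs_sub_abs_le_abs_sub Y c
    linarith
  have h4 : |(X - X0) * Y| ≤ 3 * δ / 4 * M := by
    rw [abs_mul]
    exact mul_le_mul hX hYb (abs_nonneg _) (by linarith)
  have h5 : |X0 * (Y - c)| ≤ S * ε := by
    rw [abs_mul, abs_of_pos hX0]
    exact mul_le_mul hX0S hY.le (abs_nonneg _) (by linarith)
  have h6 := abs_add_le ((X - X0) * Y) (X0 * (Y - c))
  rw [e1, abs_mul, abs_of_pos (by positivity : (0:ℝ) < 4 * b)]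
  have h7 : 4 * b * |(X - X0) * Y + X0 * (Y - c)| ≤ 4 * b * (3 * δ / 4 * M + S * ε) :=
    mul_le_mul_of_nonneg_left (by linarith) (by positivity)
  have h8 : 4 * b * (3 * δ / 4 * M + S * ε) = 3 * (16 * b * M * δ) / 16 + (16 * b * S * ε) / 4 := by
    ring
  linarith

/-- Lemma L3. -/
theorem approx (b θ0 φ0 α β τ : ℝ) (hb : 0 < b) (hθ : 0 < θ0) (hφ : 0 < φ0) (hτ : 0 < τ) :
    ∃ c1 c2 ε η ρ : ℝ, 0 < ε ∧ ε ≤ 1 / 4 ∧ 0 < η ∧ η ≤ 1 / 4 ∧ η * |c1| ≤ 1 / 16 ∧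
      η * |c2| ≤ 1 / 16 ∧ 0 < ρ ∧
      ∃ N1 : ℕ, ∀ N : ℕ, N1 ≤ N → ∀ θ φ : ℝ, |θ - θ0| ≤ ρ → |φ - φ0| ≤ ρ →
        θ ∈ AA c1 ε η N → φ ∈ AA c2 ε η N → Hit α β τ (b * θ) b (b * φ) := by
  have hX0 : 0 < 1 + φ0 := by linarith
  have hX0' : 0 < 1 + θ0 := by linarith
  obtain ⟨c1, hc1⟩ : ∃ c1 : ℝ, 4 * b * (1 + φ0) * c1 = α :=
    ⟨α / (4 * b * (1 + φ0)), by field_simp⟩
  obtain ⟨c2, hc2⟩ : ∃ c2 : ℝ, 4 * b * (1 + θ0) * c2 = -β :=
    ⟨-β / (4 * b * (1 + θ0)), by field_simp⟩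
  have ha1 := abs_nonneg c1
  have ha2 := abs_nonneg c2
  obtain ⟨M, hM⟩ : ∃ M : ℝ, M = |c1| + |c2| + 1 := ⟨_, rfl⟩
  obtain ⟨S, hS⟩ : ∃ S : ℝ, S = 1 + θ0 + φ0 := ⟨_, rfl⟩
  have hM0 : 0 < M := by rw [hM]; linarith
  have hS0 : 0 < S := by rw [hS]; linarith
  obtain ⟨δ, hδ0, hδ1, hδ2⟩ : ∃ δ : ℝ, 0 < δ ∧ δ ≤ 1 / 2 ∧ 16 * b * M * δ ≤ τ := by
    refine ⟨min (1 / 2) (τ / (16 * b * M)), lt_min (by norm_num) (by positivity),
      min_le_left _ _, ?_⟩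
    have h1 := min_le_right (1 / 2 : ℝ) (τ / (16 * b * M))
    have h2 : 16 * b * M * min (1 / 2) (τ / (16 * b * M)) ≤ 16 * b * M * (τ / (16 * b * M)) :=
      mul_le_mul_of_nonneg_left h1 (by positivity)
    have h3 : 16 * b * M * (τ / (16 * b * M)) = τ := by field_simp
    linarith
  obtain ⟨ε, hε0, hε1, hε2⟩ : ∃ ε : ℝ, 0 < ε ∧ ε ≤ 1 / 4 ∧ 16 * b * S * ε ≤ τ := by
    refine ⟨min (1 / 4) (τ / (16 * b * S)), lt_min (by norm_num) (by positivity),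
      min_le_left _ _, ?_⟩
    have h1 := min_le_right (1 / 4 : ℝ) (τ / (16 * b * S))
    have h2 : 16 * b * S * min (1 / 4) (τ / (16 * b * S)) ≤ 16 * b * S * (τ / (16 * b * S)) :=
      mul_le_mul_of_nonneg_left h1 (by positivity)
    have h3 : 16 * b * S * (τ / (16 * b * S)) = τ := by field_simp
    linarith
  obtain ⟨η, hη0, hη1, hη2, hη3⟩ : ∃ η : ℝ, 0 < η ∧ η ≤ 1 / 4 ∧ η * M ≤ 1 / 16 ∧
      S * η ≤ δ / 4 := by
    refine ⟨min (1 / 4) (min (1 / (16 * M)) (δ / (4 * S))),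
      lt_min (by norm_num) (lt_min (by positivity) (by positivity)), min_le_left _ _, ?_, ?_⟩
    · have h1 : min (1 / 4) (min (1 / (16 * M)) (δ / (4 * S))) ≤ 1 / (16 * M) :=
        (min_le_right _ _).trans (min_le_left _ _)
      have h2 := mul_le_mul_of_nonneg_right h1 hM0.le
      have h3 : 1 / (16 * M) * M = 1 / 16 := by field_simp
      linarith
    · have h1 : min (1 / 4) (min (1 / (16 * M)) (δ / (4 * S))) ≤ δ / (4 * S) :=
        (min_le_right _ _).trans (min_le_right _ _)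
      have h2 := mul_le_mul_of_nonneg_left h1 hS0.le
      have h3 : S * (δ / (4 * S)) = δ / 4 := by field_simp
      linarith
  obtain ⟨N1, hN1⟩ := exists_nat_ge (max 1 (4 * M / δ))
  refine ⟨c1, c2, ε, η, δ / 8, hε0, hε1, hη0, hη1, ?_, ?_, by positivity, N1, ?_⟩
  · have h1 : η * |c1| ≤ η * M := mul_le_mul_of_nonneg_left (by rw [hM]; linarith) hη0.le
    linarith
  · have h1 : η * |c2| ≤ η * M := mul_le_mul_of_nonneg_left (by rw [hM]; linarith) hη0.le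
    linarith
  intro N hN θ φ hθθ hφφ hA1 hA2
  obtain ⟨P, t, hP1, hP2, hPt⟩ := hA1
  obtain ⟨R, s, hR1, hR2, hRs⟩ := hA2
  have hNr : (N1 : ℝ) ≤ N := by exact_mod_cast hN
  have hNge1 : (1 : ℝ) ≤ N := (le_max_left _ _).trans (hN1.trans hNr)
  have hNge2 : 4 * M / δ ≤ N := (le_max_right _ _).trans (hN1.trans hNr)
  have hN1' : 1 ≤ N := by exact_mod_cast hNge1
  have hN0 : (0 : ℝ) < N := by linarith
  have hMN : M / N ≤ δ / 4 := by
    rw [div_le_iff₀ hδ0] at hNge2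
    rw [div_le_iff₀ hN0]
    linarith
  have hc1N : (|c1| + 1) / N ≤ δ / 4 := by
    have h1 : (|c1| + 1) / N ≤ M / N := by
      apply div_le_div_of_nonneg_right _ hN0.le
      rw [hM]; linarith
    linarith
  have hc2N : (|c2| + 1) / N ≤ δ / 4 := by
    have h1 : (|c2| + 1) / N ≤ M / N := by
      apply div_le_div_of_nonneg_right _ hN0.le
      rw [hM]; linarith
    linarith
  have hφη : φ0 * η ≤ δ / 4 := by
    have h1 : φ0 * η ≤ S * η := mul_le_mul_of_nonneg_right (by rw [hS]; linarith) hη0.le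
    linarith
  have hθη : θ0 * η ≤ δ / 4 := by
    have h1 : θ0 * η ≤ S * η := mul_le_mul_of_nonneg_right (by rw [hS]; linarith) hη0.le
    linarith
  have hXa := L3_side φ0 c2 (δ / 8) η ε δ φ N P R s hφ hη0 hη1 hN1' hP1 hP2 hR1 hR2 hφφ hRs
    (by linarith) (by linarith) hφη hc2N
  have hXb := L3_side θ0 c1 (δ / 8) η ε δ θ N R P t hθ hη0 hη1 hN1' hR1 hR2 hP1 hP2 hθθ hPt
    (by linarith) (by linarith) hθη hc1N
  have hPr : (0 : ℝ) < P := by
    have h1 : (N : ℝ) ≤ P := by exact_mod_cast hP1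
    linarith
  have hRr : (0 : ℝ) < R := by
    have h1 : (N : ℝ) ≤ R := by exact_mod_cast hR1
    linarith
  have hPs : (0 : ℝ) < (P : ℝ) + s := by
    have h1 : 0 < ((P : ℝ) + s) / P := by
      have h2 := (abs_le.1 hXa).1
      linarith
    exact (div_pos_iff_of_pos_right hPr).1 h1
  have hRt : (0 : ℝ) < (R : ℝ) + t := by
    have h1 : 0 < ((R : ℝ) + t) / R := by
      have h2 := (abs_le.1 hXb).1
      linarith
    exact (div_pos_iff_of_pos_right hRr).1 h1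
  have hPs' : 0 < (P : ℤ) + s := by exact_mod_cast hPs
  have hRt' : 0 < (R : ℤ) + t := by exact_mod_cast hRt
  have hPp : 0 < (P : ℤ) := by exact_mod_cast hPr
  have hRp : 0 < (R : ℤ) := by exact_mod_cast hRr
  refine ⟨![(2 * (P : ℤ) + s, -t), (-s, -t), (-s, 2 * (R : ℤ) + t)], ?_, ?_, ?_⟩
  · intro i j hij
    fin_cases i <;> fin_cases j <;>
      simp [Prod.ext_iff] at hij ⊢ <;> omega
  · have e1 : Qf (b * θ) b (b * φ) ((![(2 * (P : ℤ) + s, -t), (-s, -t), (-s, 2 * (R : ℤ) + t)] :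
        Fin 3 → ℤ × ℤ) 0) - Qf (b * θ) b (b * φ) ((![(2 * (P : ℤ) + s, -t), (-s, -t),
        (-s, 2 * (R : ℤ) + t)] : Fin 3 → ℤ × ℤ) 1) =
        4 * b * (((P : ℝ) + s) / P) * ((P : ℝ) * (θ * P - t)) := by
      simp only [Qf, Matrix.cons_val_zero, Matrix.cons_val_one]
      push_cast
      field_simp
      ring
    rw [e1, ← hc1]
    exact L3_fin b _ (1 + φ0) _ c1 δ ε M S τ hb hX0 (by rw [hS]; linarith) (by rw [hM]; linarith)
      hXa hPt hε0 (by linarith) hδ0 hδ2 hε2 hτ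
  · have e2 : Qf (b * θ) b (b * φ) ((![(2 * (P : ℤ) + s, -t), (-s, -t), (-s, 2 * (R : ℤ) + t)] :
        Fin 3 → ℤ × ℤ) 1) - Qf (b * θ) b (b * φ) ((![(2 * (P : ℤ) + s, -t), (-s, -t),
        (-s, 2 * (R : ℤ) + t)] : Fin 3 → ℤ × ℤ) 2) =
        -(4 * b * (((R : ℝ) + t) / R) * ((R : ℝ) * (φ * R - s))) := by
      simp only [Qf, Matrix.cons_val_one, Matrix.cons_val]
      push_cast
      field_simp
      ring
    have e3 : β = -(4 * b * (1 + θ0) * c2) := by rw [hc2]; ring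
    rw [e2, e3]
    have h := L3_fin b _ (1 + θ0) _ c2 δ ε M S τ hb hX0' (by rw [hS]; linarith)
      (by rw [hM]; linarith) hXb hRs hε0 (by linarith) hδ0 hδ2 hε2 hτ
    rw [← abs_neg]
    convert h using 2
    ring



theorem L4_vol (x : ℝ × ℝ) (r : ℝ) (hr : 0 < r) :
    volume (Metric.closedBall x r) = ENNReal.ofReal (4 * r ^ 2) := by
  obtain ⟨a, b⟩ := x
  rw [← closedBall_prod_same, Measure.volume_eq_prod, Measure.prod_prod, Real.volume_closedBall,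
    Real.volume_closedBall, ← ENNReal.ofReal_mul (by positivity)]
  congr 1
  ring

/-- Lemma L4. -/
theorem null_of_local (B : Set (ℝ × ℝ)) (hB : MeasurableSet B)
    (h : ∀ x ∈ B, ∃ δ : ℝ, 0 < δ ∧ ∃ ρ : ℝ, 0 < ρ ∧ ∀ r : ℝ, 0 < r → r ≤ ρ →
      ENNReal.ofReal (δ * r ^ 2) ≤ volume (Metric.closedBall x r \ B)) :
    volume B = 0 := by
  by_contra hne
  have hae := Besicovitch.ae_tendsto_measure_inter_div (volume : Measure (ℝ × ℝ)) B
  have hmem : ∀ᵐ x ∂(volume.restrict B), x ∈ B := ae_restrict_mem hB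
  have hnb : (ae ((volume : Measure (ℝ × ℝ)).restrict B)).NeBot := by
    rw [ae_neBot, Ne, Measure.restrict_eq_zero]
    exact hne
  obtain ⟨x, hx, hxB⟩ := (hae.and hmem).exists
  obtain ⟨δ, hδ, ρ, hρ, hr⟩ := h x hxB
  have hev : ∀ᶠ r in 𝓝[>] (0:ℝ), volume (B ∩ Metric.closedBall x r) / volume (Metric.closedBall x r)
      ≤ ENNReal.ofReal (1 - δ / 4) := by
    filter_upwards [Ioc_mem_nhdsGT hρ] with r hrr
    have h1 := hr r hrr.1 hrr.2
    have h2 := measure_inter_add_sdiff (μ := (volume : Measure (ℝ × ℝ))) (Metric.closedBall x r) hB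
    have h3 := L4_vol x r hrr.1
    have hrp := hrr.1
    have h4 : volume (B ∩ Metric.closedBall x r) + ENNReal.ofReal (δ * r ^ 2) ≤ ENNReal.ofReal (4 * r ^ 2) := by
      rw [← h3, ← h2, inter_comm]
      gcongr
    have h5 : volume (B ∩ Metric.closedBall x r) ≤ ENNReal.ofReal (4 * r ^ 2 - δ * r ^ 2) := by
      rw [ENNReal.ofReal_sub _ (by positivity)]
      exact ENNReal.le_sub_of_add_le_right ENNReal.ofReal_ne_top h4
    rw [h3]
    have h6 : ENNReal.ofReal (1 - δ / 4) = ENNReal.ofReal (4 * r ^ 2 - δ * r ^ 2) / ENNReal.ofReal (4 * r ^ 2) := by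
      rw [← ENNReal.ofReal_div_of_pos (by positivity)]
      congr 1
      field_simp
    rw [h6]
    exact ENNReal.div_le_div_right h5 _
  have hle : (1 : ENNReal) ≤ ENNReal.ofReal (1 - δ / 4) := le_of_tendsto hx hev
  have hlt : ENNReal.ofReal (1 - δ / 4) < 1 := by
    rw [← ENNReal.ofReal_one]
    exact (ENNReal.ofReal_lt_ofReal_iff one_pos).2 (by linarith)
  exact absurd hle (not_le.2 hlt)

theorem hit_open {X : Type*} [TopologicalSpace X] (f g h : X → ℝ) (hf : Continuous f)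
    (hg : Continuous g) (hh : Continuous h) (α β τ : ℝ) :
    IsOpen {p : X | Hit α β τ (f p) (g p) (h p)} := by
  rw [isOpen_iff_mem_nhds]
  rintro p ⟨x, hx, h1, h2⟩
  have c1 : Continuous fun p =>
      |Qf (f p) (g p) (h p) (x 0) - Qf (f p) (g p) (h p) (x 1) - α| := by
    unfold Qf; fun_prop
  have c2 : Continuous fun p =>
      |Qf (f p) (g p) (h p) (x 1) - Qf (f p) (g p) (h p) (x 2) - β| := by
    unfold Qf; fun_prop
  filter_upwards [(isOpen_lt c1 continuous_const).mem_nhds h1,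
    (isOpen_lt c2 continuous_const).mem_nhds h2] with q hq1 hq2
  exact ⟨x, hx, hq1, hq2⟩

/-- For fixed `b > 0` the set of `(θ, φ)` with `(α, β)` not hit by the form `(b θ, b, b φ)` is null. -/
theorem bad_null (b α β τ : ℝ) (hb : 0 < b) (hτ : 0 < τ) :
    volume {p : ℝ × ℝ | 0 < p.1 ∧ 0 < p.2 ∧ ¬ Hit α β τ (b * p.1) b (b * p.2)} = 0 := by
  apply null_of_local
  · have h1 : MeasurableSet {p : ℝ × ℝ | 0 < p.1} :=
      (isOpen_lt continuous_const continuous_fst).measurableSet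
    have h2 : MeasurableSet {p : ℝ × ℝ | 0 < p.2} :=
      (isOpen_lt continuous_const continuous_snd).measurableSet
    have h3 : MeasurableSet {p : ℝ × ℝ | Hit α β τ (b * p.1) b (b * p.2)} :=
      (hit_open (fun p : ℝ × ℝ => b * p.1) (fun _ => b) (fun p => b * p.2) (by fun_prop)
        (by fun_prop) (by fun_prop) α β τ).measurableSet
    exact h1.inter (h2.inter h3.compl)
  · rintro ⟨θ0, φ0⟩ ⟨hθ, hφ, -⟩
    simp only at hθ hφ
    obtain ⟨c1, c2, ε, η, ρ, hε, hε1, hη, hη1, hc1, hc2, hρ, N1, hN1⟩ :=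
      approx b θ0 φ0 α β τ hb hθ hφ hτ
    refine ⟨(η * ε / 25 * 2) ^ 2, by positivity, ρ, hρ, fun r hr hrρ => ?_⟩
    obtain ⟨Na, hNa⟩ := meas_lower c1 ε η hε hε1 hη hη1 hc1 (θ0 - r) (θ0 + r) (by linarith)
    obtain ⟨Nb, hNb⟩ := meas_lower c2 ε η hε hε1 hη hη1 hc2 (φ0 - r) (φ0 + r) (by linarith)
    set N := max N1 (max Na Nb) with hN
    have ha := hNa N (by omega)
    have hb' := hNb N (by omega)
    have hsub : (AA c1 ε η N ∩ Set.Icc (θ0 - r) (θ0 + r)) ×ˢ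
        (AA c2 ε η N ∩ Set.Icc (φ0 - r) (φ0 + r)) ⊆
        Metric.closedBall ((θ0, φ0) : ℝ × ℝ) r \
          {p : ℝ × ℝ | 0 < p.1 ∧ 0 < p.2 ∧ ¬ Hit α β τ (b * p.1) b (b * p.2)} := by
      rintro ⟨θ, φ⟩ ⟨⟨h1, h2⟩, ⟨h3, h4⟩⟩
      simp only at h1 h2 h3 h4
      refine ⟨?_, ?_⟩
      · rw [← closedBall_prod_same, Real.closedBall_eq_Icc, Real.closedBall_eq_Icc]
        exact ⟨h2, h4⟩
      · rintro ⟨-, -, h5⟩
        apply h5
        apply hN1 N (by omega) θ φ _ _ h1 h3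
        · rw [abs_le]; constructor <;> linarith [h2.1, h2.2]
        · rw [abs_le]; constructor <;> linarith [h4.1, h4.2]
    refine le_trans ?_ (measure_mono hsub)
    rw [Measure.volume_eq_prod, Measure.prod_prod]
    refine le_trans ?_ (mul_le_mul' ha hb')
    have hr2 : 0 ≤ η * ε / 25 * (θ0 + r - (θ0 - r)) := by
      have : 0 ≤ θ0 + r - (θ0 - r) := by linarith
      positivity
    rw [← ENNReal.ofReal_mul hr2]
    apply ENNReal.ofReal_le_ofReal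
    apply le_of_eq
    ring

/-- For fixed `b > 0` the set of `(a, c)` with `(α, β)` not hit by the form `(a, b, c)` is null. -/
theorem bad_null' (b α β τ : ℝ) (hb : 0 < b) (hτ : 0 < τ) :
    volume {p : ℝ × ℝ | 0 < p.1 ∧ 0 < p.2 ∧ ¬ Hit α β τ p.1 b p.2} = 0 := by
  have h := bad_null b α β τ hb hτ
  have e : {p : ℝ × ℝ | 0 < p.1 ∧ 0 < p.2 ∧ ¬ Hit α β τ p.1 b p.2} =
      (b⁻¹ • ·) ⁻¹' {p : ℝ × ℝ | 0 < p.1 ∧ 0 < p.2 ∧ ¬ Hit α β τ (b * p.1) b (b * p.2)} := by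
    ext ⟨a, c⟩
    simp only [Set.mem_ofPred_eq, Set.mem_preimage, Prod.smul_mk, smul_eq_mul]
    rw [mul_inv_cancel_left₀ hb.ne', mul_inv_cancel_left₀ hb.ne',
      mul_pos_iff_of_pos_left (inv_pos.mpr hb), mul_pos_iff_of_pos_left (inv_pos.mpr hb)]
  rw [e, Measure.addHaar_preimage_smul _ (inv_ne_zero hb.ne'), h, mul_zero]

theorem hit_neg (α β τ a b c : ℝ) (h : Hit α β τ a b c) : Hit α β τ a (-b) c := by
  obtain ⟨x, hx, h1, h2⟩ := h
  refine ⟨fun i => ((x i).1, -(x i).2), ?_, ?_, ?_⟩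
  · intro i j hij
    obtain ⟨h3, h4⟩ := hx i j hij
    constructor
    · intro h5
      apply h3
      rw [Prod.mk.injEq] at h5
      exact Prod.ext h5.1 (by linarith [h5.2])
    · intro h5
      apply h4
      rw [Prod.neg_mk, Prod.mk.injEq] at h5
      refine Prod.ext h5.1 ?_
      show (x i).2 = -(x j).2
      have h6 := h5.2
      simp at h6
      omega
  · convert h1 using 3
    unfold Qf
    push_cast
    ring
  · convert h2 using 3
    unfold Qf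
    push_cast
    ring

theorem bad_null'' (b α β τ : ℝ) (hb : b ≠ 0) (hτ : 0 < τ) :
    volume {p : ℝ × ℝ | 0 < p.1 ∧ 0 < p.2 ∧ ¬ Hit α β τ p.1 b p.2} = 0 := by
  rcases lt_or_gt_of_ne hb with hb | hb
  · refine measure_mono_null ?_ (bad_null' (-b) α β τ (by linarith) hτ)
    rintro ⟨a, c⟩ ⟨h1, h2, h3⟩
    refine ⟨h1, h2, fun h4 => h3 ?_⟩
    simpa using hit_neg _ _ _ _ _ _ h4
  · exact bad_null' b α β τ hb hτ

theorem ae_hit (α β τ : ℝ) (hτ : 0 < τ) :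
    ∀ᵐ p : ℝ × ℝ × ℝ, 0 < p.2.1 → 0 < p.2.2 → Hit α β τ p.2.1 p.1 p.2.2 := by
  have hm : MeasurableSet {p : ℝ × ℝ × ℝ | 0 < p.2.1 → 0 < p.2.2 → Hit α β τ p.2.1 p.1 p.2.2} := by
    have h1 : MeasurableSet {p : ℝ × ℝ × ℝ | 0 < p.2.1} :=
      (isOpen_lt continuous_const (by fun_prop)).measurableSet
    have h2 : MeasurableSet {p : ℝ × ℝ × ℝ | 0 < p.2.2} :=
      (isOpen_lt continuous_const (by fun_prop)).measurableSet
    have h3 : MeasurableSet {p : ℝ × ℝ × ℝ | Hit α β τ p.2.1 p.1 p.2.2} :=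
      (hit_open (fun p : ℝ × ℝ × ℝ => p.2.1) (fun p => p.1) (fun p => p.2.2) (by fun_prop)
        (by fun_prop) (by fun_prop) α β τ).measurableSet
    have e : {p : ℝ × ℝ × ℝ | 0 < p.2.1 → 0 < p.2.2 → Hit α β τ p.2.1 p.1 p.2.2} =
        {p : ℝ × ℝ × ℝ | 0 < p.2.1}ᶜ ∪ ({p : ℝ × ℝ × ℝ | 0 < p.2.2}ᶜ ∪
          {p : ℝ × ℝ × ℝ | Hit α β τ p.2.1 p.1 p.2.2}) := by
      ext p
      simp only [Set.mem_ofPred_eq, Set.mem_union, Set.mem_compl_iff]
      tauto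
    rw [e]
    exact h1.compl.union (h2.compl.union h3)
  have key : ∀ᵐ p ∂((volume : Measure ℝ).prod (volume : Measure (ℝ × ℝ))),
      p ∈ {p : ℝ × ℝ × ℝ | 0 < p.2.1 → 0 < p.2.2 → Hit α β τ p.2.1 p.1 p.2.2} := by
    rw [Measure.ae_prod_mem_iff_ae_ae_mem hm]
    have hb0 : ∀ᵐ b : ℝ, b ≠ 0 := by
      rw [ae_iff]
      simp
    filter_upwards [hb0] with b hb
    rw [ae_iff]
    convert bad_null'' b α β τ hb hτ using 2
    ext ⟨a, c⟩
    simp only [Set.mem_ofPred_eq]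
    tauto
  exact key

theorem ae_dense :
    ∀ᵐ p : ℝ × ℝ × ℝ, 0 < p.2.1 → 0 < p.2.2 → Dense (SQ p.2.1 p.1 p.2.2) := by
  have h : ∀ᵐ p : ℝ × ℝ × ℝ, ∀ α β : ℚ, ∀ n : ℕ, 0 < p.2.1 → 0 < p.2.2 →
      Hit α β (1 / ((n : ℝ) + 1)) p.2.1 p.1 p.2.2 := by
    rw [ae_all_iff]; intro α
    rw [ae_all_iff]; intro β
    rw [ae_all_iff]; intro n
    exact ae_hit α β _ (by positivity)
  filter_upwards [h] with p hp ha hc
  rw [Metric.dense_iff]
  rintro ⟨x, y⟩ r hr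
  obtain ⟨α, hα1, hα2⟩ := exists_rat_btwn (show x < x + r / 2 by linarith)
  obtain ⟨β, hβ1, hβ2⟩ := exists_rat_btwn (show y < y + r / 2 by linarith)
  obtain ⟨n, hn⟩ := exists_nat_one_div_lt (show 0 < r / 2 by linarith)
  obtain ⟨z, hz, h1, h2⟩ := hp α β n ha hc
  refine ⟨_, ?_, z, hz, rfl⟩
  rw [Metric.mem_ball, Prod.dist_eq, max_lt_iff, Real.dist_eq, Real.dist_eq]
  rw [abs_lt] at h1 h2
  constructor <;> rw [abs_lt] <;> constructor <;> simp only <;> linarith [h1.1, h1.2, h2.1, h2.2]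

/-- the coordinate change `(b, (a, c)) ↦ (a, (b, c))` preserves Lebesgue measure. -/
theorem perm_mp : MeasurePreserving (fun p : ℝ × ℝ × ℝ => ((p.2.1, p.1, p.2.2) : ℝ × ℝ × ℝ))
    volume volume := by
  have h1 : MeasurePreserving (MeasurableEquiv.prodAssoc : (ℝ × ℝ) × ℝ ≃ᵐ ℝ × ℝ × ℝ)
      volume volume := volume_preserving_prodAssoc
  have h2 : MeasurePreserving (Prod.map (Prod.swap : ℝ × ℝ → ℝ × ℝ) (id : ℝ → ℝ))
      ((volume : Measure (ℝ × ℝ)).prod (volume : Measure ℝ))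
      ((volume : Measure (ℝ × ℝ)).prod (volume : Measure ℝ)) :=
    (Measure.measurePreserving_swap (μ := (volume : Measure ℝ)) (ν := (volume : Measure ℝ))).prod
      (MeasurePreserving.id _)
  have h3 := h1.comp (h2.comp (h1.symm _))
  exact h3

theorem ae_dense' :
    ∀ᵐ A : ℝ × ℝ × ℝ, 0 < A.1 → 0 < A.2.2 → Dense (SQ A.1 A.2.1 A.2.2) := by
  have h := ae_dense
  have hp := perm_mp
  -- the permutation is an involution
  have h2 := hp.quasiMeasurePreserving.ae h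
  filter_upwards [h2] with A hA
  exact hA

/-- `N_T((s₁, s₂), (t₁, t₂))`: the number of admissible triples of integer vectors of Euclidean
norm less than `T` with `s₁ < Q(x₁) - Q(x₂) < s₂` and `t₁ < Q(x₂) - Q(x₃) < t₂`. -/
noncomputable def NT (a b c T s₁ s₂ t₁ t₂ : ℝ) : ℕ :=
  Set.ncard {x : Fin 3 → ℤ × ℤ | Adm x ∧
    (∀ i, Real.sqrt (((x i).1 : ℝ) ^ 2 + ((x i).2 : ℝ) ^ 2) < T) ∧
    (s₁ < Qf a b c (x 0) - Qf a b c (x 1) ∧ Qf a b c (x 0) - Qf a b c (x 1) < s₂) ∧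
    (t₁ < Qf a b c (x 1) - Qf a b c (x 2) ∧ Qf a b c (x 1) - Qf a b c (x 2) < t₂)}

theorem fin_ball (T : ℝ) :
    {x : Fin 3 → ℤ × ℤ | ∀ i, Real.sqrt (((x i).1 : ℝ) ^ 2 + ((x i).2 : ℝ) ^ 2) < T}.Finite := by
  have h1 : {v : ℤ × ℤ | Real.sqrt ((v.1 : ℝ) ^ 2 + (v.2 : ℝ) ^ 2) < T}.Finite := by
    apply ((Set.finite_Icc (-⌈T⌉) ⌈T⌉).prod (Set.finite_Icc (-⌈T⌉) ⌈T⌉)).subset
    rintro ⟨m, n⟩ h
    simp only [Set.mem_ofPred_eq] at h
    have hm : |(m : ℝ)| < T := lt_of_le_of_lt (Real.abs_le_sqrt (by nlinarith [sq_nonneg (n : ℝ)])) h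
    have hn : |(n : ℝ)| < T := lt_of_le_of_lt (Real.abs_le_sqrt (by nlinarith [sq_nonneg (m : ℝ)])) h
    rw [abs_lt] at hm hn
    have hT := Int.le_ceil T
    simp only [Set.mem_prod, Set.mem_Icc]
    refine ⟨⟨?_, ?_⟩, ⟨?_, ?_⟩⟩
    · have : (-(⌈T⌉ : ℝ)) ≤ m := by linarith [hm.1]
      exact_mod_cast this
    · have : (m : ℝ) ≤ ⌈T⌉ := by linarith [hm.2]
      exact_mod_cast this
    · have : (-(⌈T⌉ : ℝ)) ≤ n := by linarith [hn.1]
      exact_mod_cast this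
    · have : (n : ℝ) ≤ ⌈T⌉ := by linarith [hn.2]
      exact_mod_cast this
  have h2 := Set.Finite.pi (fun _ : Fin 3 => h1)
  apply h2.subset
  intro x hx
  simpa using hx

theorem tendsto_NT (a b c s₁ s₂ t₁ t₂ : ℝ) (hs : s₁ < s₂) (ht : t₁ < t₂)
    (hd : Dense (SQ a b c)) : Tendsto (fun T : ℝ => NT a b c T s₁ s₂ t₁ t₂) atTop atTop := by
  rw [tendsto_atTop]
  intro K
  set U : Set (ℝ × ℝ) := Set.Ioo s₁ s₂ ×ˢ Set.Ioo t₁ t₂ with hU
  have hUo : IsOpen U := isOpen_Ioo.prod isOpen_Ioo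
  have hUinf : ∀ F : Set (ℝ × ℝ), F.Finite → (U \ F).Nonempty := by
    intro F hF
    have hi : U.Infinite := by
      rw [hU]
      apply Set.Infinite.prod_left (Set.Ioo_infinite hs)
      exact Set.nonempty_Ioo.mpr ht
    exact (hi.sdiff hF).nonempty
  have hinf : (U ∩ SQ a b c).Infinite := by
    intro hfin
    have h1 := hUinf _ hfin
    have h2 : IsOpen (U \ (U ∩ SQ a b c)) := hUo.sdiff hfin.isClosed
    obtain ⟨z, hz1, hz2⟩ := hd.inter_open_nonempty _ h2 h1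
    exact hz1.2 ⟨hz1.1, hz2⟩
  obtain ⟨F, hF, hFc⟩ := hinf.exists_subset_card_eq K
  -- choose triples
  have hch : ∀ z ∈ F, ∃ x : Fin 3 → ℤ × ℤ, Adm x ∧
      z = (Qf a b c (x 0) - Qf a b c (x 1), Qf a b c (x 1) - Qf a b c (x 2)) := by
    intro z hz
    exact (hF hz).2
  choose! g hg1 hg2 using hch
  obtain ⟨T0, hT0⟩ : ∃ T0 : ℝ, ∀ z ∈ F, ∀ i,
      Real.sqrt (((g z i).1 : ℝ) ^ 2 + ((g z i).2 : ℝ) ^ 2) < T0 := by
    have h1 : (Set.range (fun p : F × Fin 3 =>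
        Real.sqrt (((g p.1 p.2).1 : ℝ) ^ 2 + ((g p.1 p.2).2 : ℝ) ^ 2))).Finite :=
      Set.finite_range _
    obtain ⟨M, hM⟩ := h1.bddAbove
    refine ⟨M + 1, fun z hz i => ?_⟩
    have := hM ⟨(⟨z, hz⟩, i), rfl⟩
    simp only at this
    linarith
  filter_upwards [eventually_ge_atTop T0] with T hT
  unfold NT
  set S := {x : Fin 3 → ℤ × ℤ | Adm x ∧
    (∀ i, Real.sqrt (((x i).1 : ℝ) ^ 2 + ((x i).2 : ℝ) ^ 2) < T) ∧
    (s₁ < Qf a b c (x 0) - Qf a b c (x 1) ∧ Qf a b c (x 0) - Qf a b c (x 1) < s₂) ∧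
    (t₁ < Qf a b c (x 1) - Qf a b c (x 2) ∧ Qf a b c (x 1) - Qf a b c (x 2) < t₂)} with hS
  have hSf : S.Finite := (fin_ball T).subset (fun x hx => hx.2.1)
  have hinj : Set.InjOn g (F : Set (ℝ × ℝ)) := by
    intro z hz w hw h
    rw [hg2 z hz, hg2 w hw, h]
  have hmaps : ∀ z ∈ F, g z ∈ S := by
    intro z hz
    have hzU : z ∈ U := (hF hz).1
    rw [hg2 z hz] at hzU
    refine ⟨hg1 z hz, fun i => (hT0 z hz i).trans_le hT, hzU.1, hzU.2⟩
  have h3 : (F : Set (ℝ × ℝ)).ncard ≤ S.ncard :=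
    Set.ncard_le_ncard_of_injOn g hmaps hinj hSf
  rw [Set.ncard_coe_finset, hFc] at h3
  exact h3

/-- For almost every positive definite binary form the set `S_Q` is dense in the plane, and the
number of admissible triples in every box tends to infinity. -/
theorem result :
    ∀ᵐ A : ℝ × ℝ × ℝ, 0 < A.1 → A.2.1 ^ 2 < A.1 * A.2.2 →
      Dense (SQ A.1 A.2.1 A.2.2) ∧
      ∀ s₁ s₂ t₁ t₂ : ℝ, s₁ < s₂ → t₁ < t₂ →
        Tendsto (fun T : ℝ => NT A.1 A.2.1 A.2.2 T s₁ s₂ t₁ t₂) atTop atTop := by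
  filter_upwards [ae_dense'] with A hA ha hdet
  have hc : 0 < A.2.2 := by
    by_contra hcon
    push Not at hcon
    nlinarith [sq_nonneg A.2.1]
  have hd := hA ha hc
  exact ⟨hd, fun s₁ s₂ t₁ t₂ hs ht => tendsto_NT _ _ _ _ _ _ _ hs ht hd⟩

end Pool.Agent.Results.MP_f5cbfa_nt.DenseTriple
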